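import Mathlib

/-!
# The cubical complex `D`, the cap product, and the chain map property

`V` is a finite linearly ordered set, `G` a graph on `V` (the flag complex of its cliques), `N` a
real vector space with linear maps `e a`. `D` consists of functions `x : Finset V → Finset V → N`.
-/

namespace MP8a95ee.PartTwo

noncomputable section

variable {V : Type} [Fintype V] [LinearOrder V]

/-- the cliques of `G` (the faces of the flag complex, the empty one included) -/
def IsCl (G : SimpleGraph V) (s : Finset V) : Prop := ∀ a ∈ s, ∀ b ∈ s, a ≠ b → G.Adj a b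

/-- the sign of moving `a` to its place in `w` -/
def eps (a : V) (w : Finset V) : ℝ := (-1) ^ (w.filter fun b => b < a).card

/-- the sign of the shuffle `(s, u)` -/
def sg (s u : Finset V) : ℝ := ∏ b ∈ s, eps b u

/-- the augmented simplicial boundary -/
def bdC (c : Finset V → ℝ) (w : Finset V) : ℝ :=
  ∑ a ∈ wᶜ, eps a w * c (insert a w)

variable {N : Type} [AddCommGroup N] [Module ℝ N]

/-- the coboundary of `C^*(N)` -/
def dN (e : V → N →ₗ[ℝ] N) (φ : Finset V → N) (s : Finset V) : N :=
  ∑ a ∈ s, eps a (s.erase a) • e a (φ (s.erase a))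

/-- the differential of `D` -/
def bdD (e : V → N →ₗ[ℝ] N) (x : Finset V → Finset V → N) (s u : Finset V) : N :=
  if Disjoint s u then
    (∑ a ∈ s, eps a u • e a (x (s.erase a) (insert a u))) -
      ∑ a ∈ (s ∪ u)ᶜ, eps a u • x s (insert a u)
  else 0

/-- the cap product of a chain of the flag complex and a cochain -/
def cap (c : Finset V → ℝ) (φ : Finset V → N) (s u : Finset V) : N :=
  if Disjoint s u then (sg s u * c (s ∪ u)) • φ s else 0

/-- the elements of `D`: supported on disjoint pairs whose union is a clique contained in `X`,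
with `x s u` in `e_s N` -/
structure InD (G : SimpleGraph V) (e : V → N →ₗ[ℝ] N) (X : Finset V)
    (x : Finset V → Finset V → N) : Prop where
  supp : ∀ s u, x s u ≠ 0 → Disjoint s u ∧ IsCl G (s ∪ u) ∧ s ∪ u ⊆ X
  fix : ∀ s u, ∀ a ∈ s, e a (x s u) = x s u

/-- a cochain of degree `m`: supported on cliques of size `m`, values in `e_s N` -/
structure IsCoch (G : SimpleGraph V) (e : V → N →ₗ[ℝ] N) (m : ℕ) (φ : Finset V → N) : Prop where
  supp : ∀ s, φ s ≠ 0 → IsCl G s ∧ s.card = m
  fix : ∀ s, ∀ a ∈ s, e a (φ s) = φ s

/-- the maps `e a` are idempotent and commute along the edges -/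
structure IsIdem (G : SimpleGraph V) (e : V → N →ₗ[ℝ] N) : Prop where
  idem : ∀ a v, e a (e a v) = e a v
  comm : ∀ a b, G.Adj a b → ∀ v, e a (e b v) = e b (e a v)

end

end MP8a95ee.PartTwo
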