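import Mathlib

/-!
# Cochains with coefficients in `N` and the complex `D`
-/

namespace MP8a95ee.PartTwo

open scoped Classical

noncomputable section

variable {V : Type} [Fintype V] [LinearOrder V] (G : SimpleGraph V)

/-- the sign of the position of `a` in `u` -/
def eps (a : V) (u : Finset V) : ℝ := (-1) ^ (u.filter (· < a)).card

/-- `s` is a simplex of the flag complex of `G` -/
def Clq (s : Finset V) : Prop := ∀ a ∈ s, ∀ b ∈ s, a ≠ b → G.Adj a b

/-- A coefficient system: commuting idempotents along edges, with `N ≅ e a N × e b N` for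
non-adjacent `a ≠ b`. -/
structure NData (N : Type) [AddCommGroup N] [Module ℝ N] where
  e : V → N →ₗ[ℝ] N
  idem : ∀ a x, e a (e a x) = e a x
  comm : ∀ a b, G.Adj a b → ∀ x, e a (e b x) = e b (e a x)
  inj : ∀ a b, a ≠ b → ¬ G.Adj a b → ∀ x, e a x = 0 → e b x = 0 → x = 0
  surj : ∀ a b, a ≠ b → ¬ G.Adj a b → ∀ y z, ∃ x, e a x = e a y ∧ e b x = e b z

/-! ### Simplicial chains of the full simplex on `V` (augmented), as functions on finite sets -/

/-- boundary -/
def bdL (c : Finset V → ℝ) (w : Finset V) : ℝ :=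
  ∑ a ∈ wᶜ, eps a w * c (insert a w)

/-- cone with apex `v` -/
def coneL (v : V) (c : Finset V → ℝ) (w : Finset V) : ℝ :=
  if v ∈ w then eps v (w.erase v) * c (w.erase v) else 0

/-- `c` is a chain of the full subcomplex on `X` -/
def IsL (X : Finset V) (c : Finset V → ℝ) : Prop := ∀ w, c w ≠ 0 → Clq G w ∧ w ⊆ X

/-! ### Cochains and the complex `D` -/

variable {N : Type} [AddCommGroup N] [Module ℝ N] (E : NData G N)

/-- the coboundary of a cochain -/
def dN (φ : Finset V → N) (s : Finset V) : N :=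
  ∑ a ∈ s, eps a (s.erase a) • E.e a (φ (s.erase a))

/-- `φ` is a cochain of degree `k`: supported on simplices with `k` elements, and `φ s ∈ e_s N` -/
def IsCoch (k : ℕ) (φ : Finset V → N) : Prop :=
  (∀ s, φ s ≠ 0 → Clq G s ∧ s.card = k) ∧ ∀ s, ∀ a ∈ s, E.e a (φ s) = φ s

/-- elements of `D` supported on `X` -/
def IsD (X : Finset V) (x : Finset V → Finset V → N) : Prop :=
  (∀ s u, x s u ≠ 0 → Disjoint s u ∧ Clq G (s ∪ u) ∧ s ∪ u ⊆ X) ∧
    ∀ s u, ∀ a ∈ s, E.e a (x s u) = x s u

/-- the boundary of `D` -/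
def dD (x : Finset V → Finset V → N) (s u : Finset V) : N :=
  if Disjoint s u then
    ∑ a ∈ s, eps a u • E.e a (x (s.erase a) (insert a u)) -
      ∑ a ∈ (s ∪ u)ᶜ, eps a u • x s (insert a u)
  else 0

/-- the sign of the shuffle -/
def sgn (s u : Finset V) : ℝ := (-1) ^ ((s ×ˢ u).filter fun p => p.2 < p.1).card

/-- the cap product of a chain of `L` and a cochain -/
def cap (c : Finset V → ℝ) (φ : Finset V → N) (s u : Finset V) : N :=
  if Disjoint s u then (sgn s u * c (s ∪ u)) • φ s else 0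

/-! ### Signs -/

omit [Fintype V] in
theorem eps_mul_self (a : V) (u : Finset V) : eps a u * eps a u = 1 := by
  unfold eps
  rw [← pow_add, ← two_mul, pow_mul]
  norm_num

omit [Fintype V] in
theorem eps_insert {a c : V} {u : Finset V} (hc : c ∉ u) :
    eps a (insert c u) = eps a u * if c < a then -1 else 1 := by
  unfold eps
  rw [Finset.filter_insert]
  split_ifs with h
  · rw [Finset.card_insert_of_notMem (by simp [hc]), pow_succ]
  · rw [mul_one]

omit [Fintype V] in
theorem eps_anti {a c : V} {u : Finset V} (ha : a ∉ u) (hc : c ∉ u) (hne : a ≠ c) :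
    eps a (insert c u) * eps c u = -(eps c (insert a u) * eps a u) := by
  rw [eps_insert hc, eps_insert ha]
  rcases lt_or_gt_of_ne hne with h | h
  · rw [if_neg (not_lt.2 h.le), if_pos h]; ring
  · rw [if_pos h, if_neg (not_lt.2 h.le)]; ring

omit [Fintype V] in
theorem sgn_insert_right {s u : Finset V} {a : V} (ha : a ∉ u) :
    sgn s (insert a u) = sgn s u * (-1) ^ (s.filter (a < ·)).card := by
  unfold sgn
  have h : ((s ×ˢ insert a u).filter fun p => p.2 < p.1).card =
      ((s ×ˢ u).filter fun p => p.2 < p.1).card + (s.filter (a < ·)).card := by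
    have h1 : ((s ×ˢ insert a u).filter fun p => p.2 < p.1) =
        ((s ×ˢ u).filter fun p => p.2 < p.1) ∪ (s.filter (a < ·)).image (fun b => (b, a)) := by
      ext ⟨b, c⟩
      simp only [Finset.mem_filter, Finset.mem_product, Finset.mem_insert, Finset.mem_union,
        Finset.mem_image, Prod.mk.injEq]
      constructor
      · rintro ⟨⟨hb, rfl | hc⟩, hlt⟩
        · exact Or.inr ⟨b, ⟨hb, hlt⟩, rfl, rfl⟩
        · exact Or.inl ⟨⟨hb, hc⟩, hlt⟩
      · rintro (⟨⟨hb, hc⟩, hlt⟩ | ⟨b', ⟨hb, hlt⟩, rfl, rfl⟩)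
        · exact ⟨⟨hb, Or.inr hc⟩, hlt⟩
        · exact ⟨⟨hb, Or.inl rfl⟩, hlt⟩
    rw [h1, Finset.card_union_of_disjoint, Finset.card_image_of_injective]
    · intro b c hbc
      exact (Prod.mk.inj hbc).1
    · rw [Finset.disjoint_left]
      rintro ⟨b, c⟩ h2 h3
      simp only [Finset.mem_filter, Finset.mem_product, Finset.mem_image, Prod.mk.injEq] at h2 h3
      obtain ⟨b', -, -, rfl⟩ := h3
      exact ha h2.1.2
  rw [h, pow_add]

omit [Fintype V] in
theorem sgn_insert_left {s u : Finset V} {a : V} (ha : a ∉ s) :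
    sgn (insert a s) u = sgn s u * eps a u := by
  unfold sgn eps
  have h : (((insert a s) ×ˢ u).filter fun p => p.2 < p.1).card =
      ((s ×ˢ u).filter fun p => p.2 < p.1).card + (u.filter (· < a)).card := by
    have h1 : (((insert a s) ×ˢ u).filter fun p => p.2 < p.1) =
        ((s ×ˢ u).filter fun p => p.2 < p.1) ∪ (u.filter (· < a)).image (fun b => (a, b)) := by
      ext ⟨b, c⟩
      simp only [Finset.mem_filter, Finset.mem_product, Finset.mem_insert, Finset.mem_union,
        Finset.mem_image, Prod.mk.injEq]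
      constructor
      · rintro ⟨⟨rfl | hb, hc⟩, hlt⟩
        · exact Or.inr ⟨c, ⟨hc, hlt⟩, rfl, rfl⟩
        · exact Or.inl ⟨⟨hb, hc⟩, hlt⟩
      · rintro (⟨⟨hb, hc⟩, hlt⟩ | ⟨b', ⟨hb, hlt⟩, rfl, rfl⟩)
        · exact ⟨⟨Or.inr hb, hc⟩, hlt⟩
        · exact ⟨⟨Or.inl rfl, hb⟩, hlt⟩
    rw [h1, Finset.card_union_of_disjoint, Finset.card_image_of_injective]
    · intro b c hbc
      exact (Prod.mk.inj hbc).2
    · rw [Finset.disjoint_left]
      rintro ⟨b, c⟩ h2 h3
      simp only [Finset.mem_filter, Finset.mem_product, Finset.mem_image, Prod.mk.injEq] at h2 h3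
      obtain ⟨b', -, rfl, -⟩ := h3
      exact ha h2.1.1
  rw [h, pow_add]

omit [Fintype V] in
theorem eps_mul_pow {s : Finset V} {a : V} (ha : a ∉ s) :
    eps a s * (-1) ^ (s.filter (a < ·)).card = (-1) ^ s.card := by
  unfold eps
  rw [← pow_add]
  congr 1
  rw [← Finset.card_union_of_disjoint]
  · congr 1
    ext b
    simp only [Finset.mem_union, Finset.mem_filter]
    constructor
    · rintro (h | h) <;> exact h.1
    · intro hb
      rcases lt_or_gt_of_ne (fun h : b = a => ha (h ▸ hb)) with h | h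
      · exact Or.inl ⟨hb, h⟩
      · exact Or.inr ⟨hb, h⟩
  · rw [Finset.disjoint_left]
    intro b h1 h2
    simp only [Finset.mem_filter] at h1 h2
    exact lt_asymm h1.2 h2.2

end

end MP8a95ee.PartTwo
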