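import Mathlib

/-!
# PART II: local systems on the cubical complex of a right-angled Coxeter group

`V` finite with a linear order, `G : SimpleGraph V` (adjacent = the generators commute).
Chains of the clique complex: functions `Finset V → M` supported on cliques (augmented).
-/

namespace MP8a95ee
namespace PT

open Finset Classical

set_option linter.unusedSectionVars false

variable {V : Type} [Fintype V] [LinearOrder V]

/-- Cliques (the empty set included). -/
def IsCl (G : SimpleGraph V) (w : Finset V) : Prop := ∀ a ∈ w, ∀ b ∈ w, a ≠ b → G.Adj a b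

/-- The sign of inserting `a` in `w`. -/
noncomputable def eps (a : V) (w : Finset V) : ℝ := (-1) ^ (w.filter (· < a)).card

/-- The simplicial boundary (augmented). -/
noncomputable def bdC {M : Type} [AddCommGroup M] [Module ℝ M] (c : Finset V → M) :
    Finset V → M :=
  fun w => ∑ a ∈ univ \ w, eps a w • c (insert a w)

/-- Local systems: idempotents, commuting along the edges of `G` and complementary in the sense
that `N → e a N ⊕ e b N` is bijective for the non-edges. -/
structure LS (G : SimpleGraph V) (N : Type) [AddCommGroup N] [Module ℝ N] where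
  e : V → N →ₗ[ℝ] N
  idem : ∀ a x, e a (e a x) = e a x
  comm : ∀ a b x, G.Adj a b → e a (e b x) = e b (e a x)
  inj : ∀ a b x, a ≠ b → ¬ G.Adj a b → e a x = 0 → e b x = 0 → x = 0
  surj : ∀ a b p r, a ≠ b → ¬ G.Adj a b → ∃ z, e a z = e a p ∧ e b z = e b r

variable {G : SimpleGraph V} {N : Type} [AddCommGroup N] [Module ℝ N] (S : LS G N)

/-- The part of `N` over the face `s`. -/
def E (s : Finset V) : Submodule ℝ N where
  carrier := {x | ∀ a ∈ s, S.e a x = x}
  add_mem' := by
    intro x y hx hy a ha
    rw [map_add, hx a ha, hy a ha]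
  zero_mem' := by intro a _; simp
  smul_mem' := by
    intro c x hx a ha
    rw [map_smul, hx a ha]

theorem mem_E {s : Finset V} {x : N} : x ∈ E S s ↔ ∀ a ∈ s, S.e a x = x := Iff.rfl

/-- Cochains with coefficients in the local system. -/
def IsCoch (φ : Finset V → N) : Prop := ∀ s, φ s ∈ E S s ∧ (φ s ≠ 0 → IsCl G s)

/-- The coboundary. -/
noncomputable def dN (φ : Finset V → N) : Finset V → N :=
  fun s => if IsCl G s then ∑ a ∈ s, eps a (s.erase a) • S.e a (φ (s.erase a)) else 0

/-- Chains of the complex `D`. -/
def IsD (x : Finset V → Finset V → N) : Prop :=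
  ∀ s u, x s u ∈ E S s ∧ (x s u ≠ 0 → Disjoint s u ∧ IsCl G (s ∪ u))

/-- The boundary of `D`. -/
noncomputable def bdD (x : Finset V → Finset V → N) : Finset V → Finset V → N :=
  fun s u => ∑ a ∈ s \ u, eps a u • S.e a (x (s.erase a) (insert a u)) -
    ∑ a ∈ univ \ (s ∪ u), eps a u • x s (insert a u)

/-- The shuffle sign. -/
noncomputable def tau (s u : Finset V) : ℝ := ∏ b ∈ u, eps b s

/-- Cap product. -/
noncomputable def cap (c : Finset V → ℝ) (φ : Finset V → N) : Finset V → Finset V → N :=
  fun s u => if Disjoint s u then (tau s u * c (s ∪ u)) • φ s else 0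

/-- `x` is supported in the vertex set `X`. -/
def SuppD (X : Finset V) (x : Finset V → Finset V → N) : Prop :=
  ∀ s u, x s u ≠ 0 → s ∪ u ⊆ X

end PT
end MP8a95ee
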