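import Pool.Agent.Work.MP_8a95ee_gt.PartTwo.DefsD

/-! Signs, `bdC_bdC`, `bdD_bdD`, `bdD_cap`. -/

namespace MP8a95ee
namespace PT

open Finset Classical

set_option linter.unusedSectionVars false

variable {V : Type} [Fintype V] [LinearOrder V]

theorem eps_eq_prod (a : V) (w : Finset V) : eps a w = ∏ b ∈ w, if b < a then (-1 : ℝ) else 1 := by
  unfold eps
  rw [Finset.prod_ite]
  simp

theorem eps_mul_self (a : V) (w : Finset V) : eps a w * eps a w = 1 := by
  unfold eps
  rw [← pow_add, ← two_mul, pow_mul]; simp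

theorem eps_ne_zero (a : V) (w : Finset V) : eps a w ≠ 0 := by
  unfold eps
  exact pow_ne_zero _ (by norm_num)

theorem eps_insert {a b : V} {w : Finset V} (h : a ∉ w) :
    eps b (insert a w) = (if a < b then (-1 : ℝ) else 1) * eps b w := by
  rw [eps_eq_prod, eps_eq_prod, prod_insert h]

theorem eps_union {a : V} {s u : Finset V} (h : Disjoint s u) :
    eps a (s ∪ u) = eps a s * eps a u := by
  rw [eps_eq_prod, eps_eq_prod, eps_eq_prod, prod_union h]

theorem eps_swap {a b : V} {w : Finset V} (hab : a ≠ b) (ha : a ∉ w) (hb : b ∉ w) :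
    eps a w * eps b (insert a w) = -(eps b w * eps a (insert b w)) := by
  rw [eps_insert ha, eps_insert hb]
  rcases lt_or_gt_of_ne hab with h | h
  · rw [if_pos h, if_neg (not_lt.2 h.le)]; ring
  · rw [if_pos h, if_neg (not_lt.2 h.le)]; ring

theorem sum_antisym {M : Type} [AddCommGroup M] [Module ℝ M] (A : Finset V) (F : V → V → M)
    (h : ∀ a ∈ A, ∀ b ∈ A, a ≠ b → F a b = - F b a) :
    ∑ a ∈ A, ∑ b ∈ A.erase a, F a b = 0 := by
  have h1 : ∑ a ∈ A, ∑ b ∈ A.erase a, F a b = ∑ b ∈ A, ∑ a ∈ A.erase b, F a b := by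
    refine Finset.sum_comm' ?_
    intro x y
    simp only [mem_erase]
    constructor
    · rintro ⟨h1, h2, h3⟩; exact ⟨⟨fun h => h2 h.symm, h1⟩, h3⟩
    · rintro ⟨⟨h1, h2⟩, h3⟩; exact ⟨h2, fun h => h1 h.symm, h3⟩
  have h2 : ∑ b ∈ A, ∑ a ∈ A.erase b, F a b = - ∑ a ∈ A, ∑ b ∈ A.erase a, F a b := by
    rw [← sum_neg_distrib]
    refine sum_congr rfl fun b hb => ?_
    rw [← sum_neg_distrib]
    refine sum_congr rfl fun a ha => ?_
    rw [mem_erase] at ha
    exact h a ha.2 b hb ha.1
  have h3 := h1.trans h2
  have h4 : (2 : ℝ) • ∑ a ∈ A, ∑ b ∈ A.erase a, F a b = 0 := by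
    rw [two_smul]
    nth_rewrite 1 [h3]
    simp
  exact (smul_eq_zero.1 h4).resolve_left (by norm_num)

theorem insert_comm' (a b : V) (w : Finset V) : insert a (insert b w) = insert b (insert a w) :=
  Finset.insert_comm a b w

theorem bdC_bdC {M : Type} [AddCommGroup M] [Module ℝ M] (c : Finset V → M) :
    bdC (bdC c) = 0 := by
  funext w
  have h1 : ∀ a ∈ univ \ w, (univ \ (insert a w) : Finset V) = (univ \ w).erase a := by
    intro a _
    ext b
    simp only [mem_sdiff, mem_univ, true_and, mem_insert, mem_erase]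
    tauto
  have h2 : bdC (bdC c) w = ∑ a ∈ univ \ w, ∑ b ∈ (univ \ w).erase a,
      (eps a w * eps b (insert a w)) • c (insert b (insert a w)) := by
    change ∑ a ∈ univ \ w, eps a w • (∑ b ∈ univ \ (insert a w), _) = _
    refine sum_congr rfl fun a ha => ?_
    rw [h1 a ha, smul_sum]
    refine sum_congr rfl fun b _ => ?_
    rw [smul_smul]
  rw [h2]
  refine sum_antisym _ _ ?_
  intro a ha b hb hab
  simp only [mem_sdiff, mem_univ, true_and] at ha hb
  rw [eps_swap hab ha hb, insert_comm' b a, neg_smul]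

variable {G : SimpleGraph V} {N : Type} [AddCommGroup N] [Module ℝ N] (S : LS G N)

theorem IsD.zero_of_not {x : Finset V → Finset V → N} (hx : IsD S x) {s u : Finset V}
    (h : ¬ (Disjoint s u ∧ IsCl G (s ∪ u))) : x s u = 0 := by
  by_contra h1
  exact h ((hx s u).2 h1)

theorem IsCl.mono {w w' : Finset V} (h : IsCl G w) (hw : w' ⊆ w) : IsCl G w' :=
  fun a ha b hb hab => h a (hw ha) b (hw hb) hab

theorem erase_union_insert {a : V} {s u : Finset V} (ha : a ∈ s) :
    s.erase a ∪ insert a u = s ∪ u := by
  ext b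
  simp only [mem_union, mem_erase, mem_insert]
  by_cases hb : b = a
  · subst hb; simp [ha]
  · simp [hb]

theorem e_comm_E {s : Finset V} {x : N} {a : V} (hx : x ∈ E S s)
    (h : ∀ b ∈ s, b ≠ a → G.Adj b a) : S.e a x ∈ E S (insert a s) := by
  intro b hb
  rw [mem_insert] at hb
  by_cases hba : b = a
  · subst hba; exact S.idem _ _
  · rcases hb with hb | hb
    · exact absurd hb hba
    · rw [S.comm b a x (h b hb hba), hx b hb]

theorem isD_bdD {x : Finset V → Finset V → N} (hx : IsD S x) : IsD S (bdD S x) := by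
  intro s u
  constructor
  · refine Submodule.sub_mem _ (Submodule.sum_mem _ fun a ha => Submodule.smul_mem _ _ ?_)
      (Submodule.sum_mem _ fun a ha => Submodule.smul_mem _ _ (hx s _).1)
    rw [mem_sdiff] at ha
    by_cases h0 : x (s.erase a) (insert a u) = 0
    · rw [h0, map_zero]; exact Submodule.zero_mem _
    · have h1 := ((hx (s.erase a) (insert a u)).2 h0).2
      rw [erase_union_insert ha.1] at h1
      have h2 := e_comm_E S (a := a) (hx (s.erase a) (insert a u)).1 (by
        intro b hb hba
        exact h1 b (mem_union_left _ (mem_of_mem_erase hb)) a (mem_union_left _ ha.1) hba)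
      rwa [insert_erase ha.1] at h2
  · intro h
    by_contra hn
    apply h
    unfold bdD
    rw [sum_eq_zero, sum_eq_zero, sub_zero]
    · intro a ha
      simp only [mem_sdiff, mem_univ, true_and] at ha
      rw [hx.zero_of_not S, smul_zero]
      rintro ⟨h1, h2⟩
      exact hn ⟨h1.mono_right (subset_insert _ _), h2.mono (union_subset_union_right (subset_insert _ _))⟩
    · intro a ha
      rw [mem_sdiff] at ha
      rw [hx.zero_of_not S, map_zero, smul_zero]
      rintro ⟨h1, h2⟩
      rw [erase_union_insert ha.1] at h2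
      refine hn ⟨?_, h2⟩
      rw [disjoint_left] at h1 ⊢
      intro b hb hbu
      by_cases hba : b = a
      · subst hba; exact ha.2 hbu
      · exact h1 (mem_erase.2 ⟨hba, hb⟩) (mem_insert_of_mem hbu)

theorem suppD_bdD {x : Finset V → Finset V → N} {X : Finset V} (hx : SuppD X x) :
    SuppD X (bdD S x) := by
  intro s u h
  by_contra hn
  apply h
  unfold bdD
  rw [sum_eq_zero, sum_eq_zero, sub_zero]
  · intro a ha
    by_cases h0 : x s (insert a u) = 0
    · rw [h0, smul_zero]
    · exact absurd ((union_subset_union_right (subset_insert _ _)).trans (hx _ _ h0)) hn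
  · intro a ha
    rw [mem_sdiff] at ha
    by_cases h0 : x (s.erase a) (insert a u) = 0
    · rw [h0, map_zero, smul_zero]
    · have := hx _ _ h0
      rw [erase_union_insert ha.1] at this
      exact absurd this hn

theorem bdD_bdD {x : Finset V → Finset V → N} (hx : IsD S x) : bdD S (bdD S x) = 0 := by
  funext s u
  have e1 : ∀ a ∈ s \ u, (s.erase a \ insert a u : Finset V) = (s \ u).erase a := by
    intro a ha
    ext b
    simp only [mem_sdiff, mem_erase, mem_insert]
    tauto
  have e2 : ∀ a ∈ s \ u, (univ \ (s.erase a ∪ insert a u) : Finset V) = univ \ (s ∪ u) := by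
    intro a ha
    rw [mem_sdiff] at ha
    rw [erase_union_insert ha.1]
  have e3 : ∀ a ∈ univ \ (s ∪ u), (s \ insert a u : Finset V) = s \ u := by
    intro a ha
    simp only [mem_sdiff, mem_univ, true_and, mem_union, not_or] at ha
    ext b
    simp only [mem_sdiff, mem_insert, not_or]
    constructor
    · rintro ⟨h1, h2, h3⟩; exact ⟨h1, h3⟩
    · rintro ⟨h1, h2⟩
      exact ⟨h1, fun h => ha.1 (h ▸ h1), h2⟩
  have e4 : ∀ a ∈ univ \ (s ∪ u), (univ \ (s ∪ insert a u) : Finset V) =
      (univ \ (s ∪ u)).erase a := by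
    intro a ha
    ext b
    simp only [mem_sdiff, mem_univ, true_and, mem_union, mem_insert, mem_erase]
    tauto
  have A1 : ∑ a ∈ s \ u, ∑ b ∈ (s \ u).erase a, (eps a u * eps b (insert a u)) •
      S.e a (S.e b (x ((s.erase a).erase b) (insert b (insert a u)))) = 0 := by
    refine sum_antisym _ _ ?_
    intro a ha b hb hab
    rw [mem_sdiff] at ha hb
    rw [eps_swap hab ha.2 hb.2, insert_comm' b a, neg_smul, erase_right_comm (a := a)]
    congr 2
    by_cases h0 : x ((s.erase b).erase a) (insert a (insert b u)) = 0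
    · rw [h0]; simp
    · have h1 := ((hx _ _).2 h0).2
      have h2 : G.Adj a b := h1 a (mem_union_right _ (mem_insert_self _ _)) b
        (mem_union_right _ (mem_insert_of_mem (mem_insert_self _ _))) hab
      rw [S.comm a b _ h2]
  have A2 : ∑ a ∈ univ \ (s ∪ u), ∑ b ∈ (univ \ (s ∪ u)).erase a, (eps a u * eps b (insert a u)) •
      x s (insert b (insert a u)) = 0 := by
    refine sum_antisym _ _ ?_
    intro a ha b hb hab
    simp only [mem_sdiff, mem_univ, true_and, mem_union, not_or] at ha hb
    rw [eps_swap hab ha.2 hb.2, insert_comm' b a, neg_smul]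
  have A3 : ∑ a ∈ s \ u, ∑ b ∈ univ \ (s ∪ u), (eps a u * eps b (insert a u)) •
      S.e a (x (s.erase a) (insert b (insert a u))) +
      ∑ a ∈ univ \ (s ∪ u), ∑ b ∈ s \ u, (eps a u * eps b (insert a u)) •
      S.e b (x (s.erase b) (insert b (insert a u))) = 0 := by
    rw [Finset.sum_comm (s := univ \ (s ∪ u)), ← sum_add_distrib]
    refine sum_eq_zero fun a ha => ?_
    rw [← sum_add_distrib]
    refine sum_eq_zero fun b hb => ?_
    rw [mem_sdiff] at ha
    simp only [mem_sdiff, mem_univ, true_and, mem_union, not_or] at hb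
    have hab : a ≠ b := fun h => hb.1 (h ▸ ha.1)
    rw [eps_swap hab ha.2 hb.2, insert_comm' b a, neg_smul]
    simp
  have key : bdD S (bdD S x) s u =
      (∑ a ∈ s \ u, ∑ b ∈ (s \ u).erase a, (eps a u * eps b (insert a u)) •
      S.e a (S.e b (x ((s.erase a).erase b) (insert b (insert a u)))) -
      ∑ a ∈ s \ u, ∑ b ∈ univ \ (s ∪ u), (eps a u * eps b (insert a u)) •
      S.e a (x (s.erase a) (insert b (insert a u)))) -
      (∑ a ∈ univ \ (s ∪ u), ∑ b ∈ s \ u, (eps a u * eps b (insert a u)) •
      S.e b (x (s.erase b) (insert b (insert a u))) -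
      ∑ a ∈ univ \ (s ∪ u), ∑ b ∈ (univ \ (s ∪ u)).erase a, (eps a u * eps b (insert a u)) •
      x s (insert b (insert a u))) := by
    rw [← sum_sub_distrib, ← sum_sub_distrib]
    change ∑ a ∈ s \ u, eps a u • S.e a (bdD S x (s.erase a) (insert a u)) -
      ∑ a ∈ univ \ (s ∪ u), eps a u • bdD S x s (insert a u) = _
    congr 1
    · refine sum_congr rfl fun a ha => ?_
      unfold bdD
      rw [e1 a ha, e2 a ha, map_sub, smul_sub, map_sum, map_sum, smul_sum, smul_sum]
      congr 1
      · refine sum_congr rfl fun b _ => ?_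
        rw [map_smul, smul_smul]
      · refine sum_congr rfl fun b _ => ?_
        rw [map_smul, smul_smul]
    · refine sum_congr rfl fun a ha => ?_
      unfold bdD
      rw [e3 a ha, e4 a ha, smul_sub, smul_sum, smul_sum]
      congr 1
      · refine sum_congr rfl fun b _ => ?_
        rw [smul_smul]
      · refine sum_congr rfl fun b _ => ?_
        rw [smul_smul]
  rw [key, A1, A2]
  have A4 := A3
  rw [add_eq_zero_iff_eq_neg] at A4
  rw [A4]
  simp

theorem bdD_add (x y : Finset V → Finset V → N) : bdD S (x + y) = bdD S x + bdD S y := by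
  funext s u
  simp only [bdD, Pi.add_apply, map_add, smul_add, sum_add_distrib]
  abel

theorem bdD_smul (r : ℝ) (x : Finset V → Finset V → N) : bdD S (r • x) = r • bdD S x := by
  funext s u
  simp only [bdD, Pi.smul_apply, map_smul, smul_sub, smul_sum]
  congr 1 <;> exact sum_congr rfl fun a _ => smul_comm _ _ _

theorem suppD_cap {c : Finset V → ℝ} {φ : Finset V → N} {X : Finset V}
    (hc : ∀ w, c w ≠ 0 → w ⊆ X) : SuppD X (cap c φ) := by
  intro s u h
  unfold cap at h
  split_ifs at h with h1
  · apply hc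
    intro h2
    apply h
    rw [h2]; simp
  · exact absurd rfl h

theorem isD_cap {c : Finset V → ℝ} {φ : Finset V → N} (hφ : IsCoch S φ)
    (hc : ∀ w, c w ≠ 0 → IsCl G w) : IsD S (cap c φ) := by
  intro s u
  unfold cap
  split_ifs with h1
  · refine ⟨Submodule.smul_mem _ _ (hφ s).1, fun h => ⟨h1, hc _ fun h2 => h ?_⟩⟩
    rw [h2]; simp
  · exact ⟨Submodule.zero_mem _, fun h => absurd rfl h⟩

theorem tau_insert {s u : Finset V} {a : V} (ha : a ∉ u) :
    tau s (insert a u) = eps a s * tau s u := by
  unfold tau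
  rw [prod_insert ha]

theorem tau_erase {s u : Finset V} {a : V} (ha : a ∈ s) (hau : a ∉ u) :
    eps a u * tau (s.erase a) (insert a u) = (-1) ^ u.card * tau s u * eps a (s.erase a) := by
  rw [tau_insert hau]
  have h1 : (-1 : ℝ) ^ u.card * tau s u = eps a u * tau (s.erase a) u := by
    unfold tau
    rw [← prod_const, eps_eq_prod, ← prod_mul_distrib, ← prod_mul_distrib]
    refine prod_congr rfl fun b hb => ?_
    have h2 : eps b s = (if a < b then (-1 : ℝ) else 1) * eps b (s.erase a) := by
      rw [← eps_insert (notMem_erase a s), insert_erase ha]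
    rw [h2]
    have hab : a ≠ b := fun h => hau (h ▸ hb)
    rcases lt_or_gt_of_ne hab with h | h
    · rw [if_pos h, if_neg (not_lt.2 h.le)]; ring
    · rw [if_pos h, if_neg (not_lt.2 h.le)]; ring
  rw [h1]; ring

theorem bdD_cap {c : Finset V → ℝ} {φ : Finset V → N} (hφ : IsCoch S φ) (hd : dN S φ = 0)
    (hc : ∀ w, c w ≠ 0 → IsCl G w) : bdD S (cap c φ) = - cap (bdC c) φ := by
  funext s u
  by_cases hsu : Disjoint s u
  · have h1 : ∑ a ∈ s \ u, eps a u • S.e a (cap c φ (s.erase a) (insert a u)) = 0 := by
      have hs : s \ u = s := by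
        rw [sdiff_eq_left]; exact hsu
      rw [hs]
      have h2 : ∀ a ∈ s, eps a u • S.e a (cap c φ (s.erase a) (insert a u)) =
          ((-1) ^ u.card * tau s u * c (s ∪ u)) • (eps a (s.erase a) • S.e a (φ (s.erase a))) := by
        intro a ha
        have hau : a ∉ u := disjoint_left.1 hsu ha
        have hdis : Disjoint (s.erase a) (insert a u) := by
          rw [disjoint_insert_right]
          exact ⟨notMem_erase a s, hsu.mono_left (erase_subset _ _)⟩
        unfold cap
        rw [if_pos hdis, erase_union_insert ha, map_smul, smul_smul, smul_smul, ← mul_assoc,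
          tau_erase ha hau]
        ring_nf
      rw [sum_congr rfl h2, ← smul_sum]
      by_cases h3 : c (s ∪ u) = 0
      · rw [h3]; simp
      · have h4 : IsCl G s := (hc _ h3).mono subset_union_left
        have h5 := congrFun hd s
        unfold dN at h5
        rw [if_pos h4] at h5
        rw [h5]; simp
    have h2 : ∀ a ∈ univ \ (s ∪ u), eps a u • cap c φ s (insert a u) =
        (tau s u * (eps a (s ∪ u) * c (insert a (s ∪ u)))) • φ s := by
      intro a ha
      simp only [mem_sdiff, mem_univ, true_and, mem_union, not_or] at ha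
      have hdis : Disjoint s (insert a u) := by
        rw [disjoint_insert_right]; exact ⟨ha.1, hsu⟩
      unfold cap
      rw [if_pos hdis, tau_insert ha.2, smul_smul, eps_union hsu, union_insert]
      ring_nf
    unfold bdD
    rw [h1, sum_congr rfl h2, zero_sub, ← sum_smul, ← mul_sum]
    simp only [Pi.neg_apply, cap, if_pos hsu, bdC, smul_eq_mul]
  · have h1 : (-cap (bdC c) φ) s u = 0 := by
      simp [cap, hsu]
    rw [h1]
    unfold bdD
    rw [sum_eq_zero, sum_eq_zero, sub_zero]
    · intro a ha
      unfold cap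
      rw [if_neg, smul_zero]
      intro h
      exact hsu (h.mono_right (subset_insert _ _))
    · intro a ha
      rw [mem_sdiff] at ha
      unfold cap
      rw [if_neg, map_zero, smul_zero]
      intro h
      apply hsu
      rw [disjoint_left] at h ⊢
      intro b hb hbu
      by_cases hba : b = a
      · subst hba; exact ha.2 hbu
      · exact h (mem_erase.2 ⟨hba, hb⟩) (mem_insert_of_mem hbu)

end PT
end MP8a95ee
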