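import Pool.Agent.Work.MP_8a95ee_gt.PartTwo.ProofsD1

/-! `acyclic_pair`: the complex `D` of a suspension is acyclic. -/

namespace MP8a95ee
namespace PT

open Finset Classical

set_option linter.unusedSectionVars false

variable {V : Type} [Fintype V] [LinearOrder V]
variable {G : SimpleGraph V} {N : Type} [AddCommGroup N] [Module ℝ N] (S : LS G N)

theorem LS.uniq {a b : V} (hab : a ≠ b) (hadj : ¬ G.Adj a b) {z z' : N}
    (ha : S.e a z = S.e a z') (hb : S.e b z = S.e b z') : z = z' := by
  rw [← sub_eq_zero]
  apply S.inj a b _ hab hadj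
  · rw [map_sub, ha, sub_self]
  · rw [map_sub, hb, sub_self]

/-- The inverse of `N → e a N ⊕ e b N`. -/
noncomputable def ZZ {a b : V} (hab : a ≠ b) (hadj : ¬ G.Adj a b) : (N × N) →ₗ[ℝ] N where
  toFun p := (S.surj a b p.1 p.2 hab hadj).choose
  map_add' := by
    intro p q
    have hp := (S.surj a b p.1 p.2 hab hadj).choose_spec
    have hq := (S.surj a b q.1 q.2 hab hadj).choose_spec
    have hpq := (S.surj a b (p + q).1 (p + q).2 hab hadj).choose_spec
    apply S.uniq hab hadj
    · rw [hpq.1, map_add, hp.1, hq.1, Prod.fst_add, map_add]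
    · rw [hpq.2, map_add, hp.2, hq.2, Prod.snd_add, map_add]
  map_smul' := by
    intro r p
    have hp := (S.surj a b p.1 p.2 hab hadj).choose_spec
    have hpq := (S.surj a b (r • p).1 (r • p).2 hab hadj).choose_spec
    apply S.uniq hab hadj
    · rw [hpq.1, map_smul, hp.1, Prod.smul_fst, map_smul]; rfl
    · rw [hpq.2, map_smul, hp.2, Prod.smul_snd, map_smul]; rfl

theorem ZZ_a {a b : V} (hab : a ≠ b) (hadj : ¬ G.Adj a b) (p : N × N) :
    S.e a (ZZ S hab hadj p) = S.e a p.1 := (S.surj a b p.1 p.2 hab hadj).choose_spec.1

theorem ZZ_b {a b : V} (hab : a ≠ b) (hadj : ¬ G.Adj a b) (p : N × N) :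
    S.e b (ZZ S hab hadj p) = S.e b p.2 := (S.surj a b p.1 p.2 hab hadj).choose_spec.2

theorem ZZ_e {a b c : V} (hab : a ≠ b) (hadj : ¬ G.Adj a b) (hca : G.Adj c a) (hcb : G.Adj c b)
    (p : N × N) : S.e c (ZZ S hab hadj p) = ZZ S hab hadj (S.e c p.1, S.e c p.2) := by
  apply S.uniq hab hadj
  · rw [ZZ_a, S.comm a c _ hca.symm, ZZ_a]
    exact S.comm c a _ hca
  · rw [ZZ_b, S.comm b c _ hcb.symm, ZZ_b]
    exact S.comm c b _ hcb

section

variable {a b : V} (hab : a ≠ b) (hadj : ¬ G.Adj a b) (x : Finset V → Finset V → N)

/-- auxiliary -/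
noncomputable def za (s u : Finset V) : N :=
  ZZ S hab hadj (x (insert a s) u, - x s u - x (insert b s) u)

/-- auxiliary -/
noncomputable def zb (s u : Finset V) : N := - x s u - za S hab hadj x s u

/-- The primitive. -/
noncomputable def yy (s u : Finset V) : N :=
  if a ∈ s ∨ b ∈ s then 0
  else if a ∈ u ∧ b ∉ u then eps a (u.erase a) • za S hab hadj x s (u.erase a)
  else if b ∈ u ∧ a ∉ u then eps b (u.erase b) • zb S hab hadj x s (u.erase b)
  else 0

theorem yy_s {s u : Finset V} (h : a ∈ s ∨ b ∈ s) : yy S hab hadj x s u = 0 := by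
  unfold yy; rw [if_pos h]

theorem yy_none {s u : Finset V} (h : a ∉ u) (h' : b ∉ u) : yy S hab hadj x s u = 0 := by
  unfold yy
  split_ifs with h1 h2 h3
  · rfl
  · exact absurd h2.1 h
  · exact absurd h3.1 h'
  · rfl

theorem yy_both {s u : Finset V} (h : a ∈ u) (h' : b ∈ u) : yy S hab hadj x s u = 0 := by
  unfold yy
  split_ifs with h1 h2 h3
  · rfl
  · exact absurd h' h2.2
  · exact absurd h h3.2
  · rfl

theorem yy_a {s u : Finset V} (has : a ∉ s) (hbs : b ∉ s) (hau : a ∉ u) (hbu : b ∉ u) :
    yy S hab hadj x s (insert a u) = eps a u • za S hab hadj x s u := by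
  unfold yy
  rw [if_neg (by tauto), if_pos ⟨mem_insert_self _ _, by
    rw [mem_insert, not_or]; exact ⟨fun h => hab h.symm, hbu⟩⟩, erase_insert hau]

theorem yy_b {s u : Finset V} (has : a ∉ s) (hbs : b ∉ s) (hau : a ∉ u) (hbu : b ∉ u) :
    yy S hab hadj x s (insert b u) = eps b u • zb S hab hadj x s u := by
  unfold yy
  have h1 : a ∉ insert b u := by
    rw [mem_insert, not_or]; exact ⟨hab, hau⟩
  rw [if_neg (by tauto), if_neg (by tauto), if_pos ⟨mem_insert_self _ _, h1⟩, erase_insert hbu]

variable {x}

/-- The two sums of `bdD` without the terms `a`, `b`. -/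
noncomputable def b1 (a b : V) (f g : Finset V → Finset V → N) (s u : Finset V) : N :=
  ∑ c ∈ s \ u, eps c u • S.e c (f (s.erase c) (insert c u)) -
    ∑ c ∈ univ \ (insert a (insert b (s ∪ u))), eps c u • g s (insert c u)

theorem sub_lemma {A B P Q : N} (h1 : A = -P) (h2 : B = -Q) : A - B = -(P - Q) := by
  rw [h1, h2]; abel

include hab in
theorem bd_zero_s (hx : IsD S x) (hd : bdD S x = 0) {s u : Finset V}
    (has : a ∉ s) (hbs : b ∉ s) (hau : a ∉ u) (hbu : b ∉ u) :
    b1 S a b x x s u = eps a u • x s (insert a u) + eps b u • x s (insert b u) := by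
  have h := congrFun (congrFun hd s) u
  unfold bdD at h
  have h1 : (univ \ (s ∪ u) : Finset V) =
      insert a (insert b (univ \ (insert a (insert b (s ∪ u))))) := by
    ext c
    simp only [mem_sdiff, mem_univ, true_and, mem_insert, mem_union, not_or]
    constructor
    · intro hc
      by_cases h1 : c = a
      · exact Or.inl h1
      · by_cases h2 : c = b
        · exact Or.inr (Or.inl h2)
        · exact Or.inr (Or.inr ⟨h1, h2, hc⟩)
    · rintro (h | h | h)
      · subst h; exact ⟨has, hau⟩
      · subst h; exact ⟨hbs, hbu⟩
      · exact h.2.2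
  rw [h1, sum_insert, sum_insert] at h
  · unfold b1
    simp only [Pi.zero_apply] at h
    rw [← sub_eq_zero]
    rw [← h]
    abel
  · simp
  · simp [hab]

include hab hadj in
theorem bd_zero_a (hx : IsD S x) (hd : bdD S x = 0) {s u : Finset V}
    (has : a ∉ s) (hbs : b ∉ s) (hau : a ∉ u) (hbu : b ∉ u) :
    b1 S a b (fun s' u' => x (insert a s') u') (fun s' u' => x (insert a s') u') s u =
      - (eps a u • S.e a (x s (insert a u))) := by
  have h := congrFun (congrFun hd (insert a s)) u
  unfold bdD at h
  have h1 : (univ \ (insert a s ∪ u) : Finset V) =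
      insert b (univ \ (insert a (insert b (s ∪ u)))) := by
    ext c
    simp only [mem_sdiff, mem_univ, true_and, mem_insert, mem_union, not_or]
    constructor
    · intro hc
      by_cases h2 : c = b
      · exact Or.inl h2
      · exact Or.inr ⟨hc.1.1, h2, hc.1.2, hc.2⟩
    · rintro (h | h)
      · subst h; exact ⟨⟨fun h => hab h.symm, hbs⟩, hbu⟩
      · exact ⟨⟨h.1, h.2.2.1⟩, h.2.2.2⟩
  have h2 : (insert a s \ u : Finset V) = insert a (s \ u) := by
    ext c
    simp only [mem_sdiff, mem_insert]
    constructor
    · rintro ⟨h | h, h'⟩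
      · exact Or.inl h
      · exact Or.inr ⟨h, h'⟩
    · rintro (h | h)
      · subst h; exact ⟨Or.inl rfl, hau⟩
      · exact ⟨Or.inr h.1, h.2⟩
  rw [h1, h2, sum_insert, sum_insert] at h
  · have h3 : x (insert a s) (insert b u) = 0 := by
      apply hx.zero_of_not S
      rintro ⟨_, h4⟩
      exact hadj (h4 a (mem_union_left _ (mem_insert_self _ _)) b
        (mem_union_right _ (mem_insert_self _ _)) hab)
    rw [h3, smul_zero, zero_add, erase_insert has] at h
    unfold b1
    simp only [Pi.zero_apply] at h
    have h4 : ∑ c ∈ s \ u, eps c u • S.e c (x ((insert a s).erase c) (insert c u)) =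
        ∑ c ∈ s \ u, eps c u • S.e c (x (insert a (s.erase c)) (insert c u)) := by
      refine sum_congr rfl fun c hc => ?_
      rw [mem_sdiff] at hc
      rw [erase_insert_of_ne (fun h : a = c => has (by rw [h]; exact hc.1))]
    rw [h4] at h
    rw [← sub_eq_zero]
    rw [← h]
    abel
  · simp
  · simp [has]

include hab hadj in
theorem bd_zero_b (hx : IsD S x) (hd : bdD S x = 0) {s u : Finset V}
    (has : a ∉ s) (hbs : b ∉ s) (hau : a ∉ u) (hbu : b ∉ u) :
    b1 S a b (fun s' u' => x (insert b s') u') (fun s' u' => x (insert b s') u') s u =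
      - (eps b u • S.e b (x s (insert b u))) := by
  have h := bd_zero_a S (a := b) (b := a) hab.symm (fun h => hadj h.symm) hx hd hbs has hbu hau
  rw [← h]
  unfold b1
  rw [insert_comm' b a]

theorem e_za (hx : IsD S x) {Y : Finset V} (hY : ∀ c ∈ Y, G.Adj c a ∧ G.Adj c b)
    (hs : SuppD (insert a (insert b Y)) x) {s u : Finset V} {c : V} (hca : c ≠ a) (hcb : c ≠ b)
    (hc : c ∈ u) :
    S.e c (za S hab hadj x s u) = ZZ S hab hadj
      (S.e c (x (insert a s) u), - S.e c (x s u) - S.e c (x (insert b s) u)) := by
  by_cases hcY : c ∈ Y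
  · unfold za
    rw [ZZ_e S hab hadj (hY c hcY).1 (hY c hcY).2]
    simp only [map_sub, map_neg]
  · have h0 : ∀ s', x s' u = 0 := by
      intro s'
      by_contra h
      have h1 := hs _ _ h (mem_union_right _ hc)
      rw [mem_insert, mem_insert] at h1
      rcases h1 with h1 | h1 | h1
      · exact hca h1
      · exact hcb h1
      · exact hcY h1
    unfold za
    rw [h0, h0, h0]
    simp only [neg_zero, map_zero, sub_zero]
    rw [show ((0 : N), (0 : N)) = 0 from rfl, map_zero, map_zero]

theorem b1_za (hx : IsD S x) {Y : Finset V} (hY : ∀ c ∈ Y, G.Adj c a ∧ G.Adj c b)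
    (hs : SuppD (insert a (insert b Y)) x) (hd : bdD S x = 0) {s u : Finset V}
    (has : a ∉ s) (hbs : b ∉ s) (hau : a ∉ u) (hbu : b ∉ u) :
    b1 S a b (za S hab hadj x) (za S hab hadj x) s u = -(eps a u • x s (insert a u)) := by
  have h1 : b1 S a b (za S hab hadj x) (za S hab hadj x) s u = ZZ S hab hadj
      (b1 S a b (fun s' u' => x (insert a s') u') (fun s' u' => x (insert a s') u') s u,
        - b1 S a b x x s u -
          b1 S a b (fun s' u' => x (insert b s') u') (fun s' u' => x (insert b s') u') s u) := by
    unfold b1
    have h2 : ∀ c ∈ s \ u, eps c u • S.e c (za S hab hadj x (s.erase c) (insert c u)) =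
        ZZ S hab hadj (eps c u • S.e c (x (insert a (s.erase c)) (insert c u)),
          eps c u • (- S.e c (x (s.erase c) (insert c u)) -
            S.e c (x (insert b (s.erase c)) (insert c u)))) := by
      intro c hc
      rw [mem_sdiff] at hc
      rw [e_za S hab hadj hx hY hs (fun h => has (h ▸ hc.1)) (fun h => hbs (h ▸ hc.1))
        (mem_insert_self _ _), ← map_smul]
      rfl
    have h3 : ∀ c ∈ univ \ (insert a (insert b (s ∪ u))),
        eps c u • za S hab hadj x s (insert c u) =
        ZZ S hab hadj (eps c u • x (insert a s) (insert c u),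
          eps c u • (- x s (insert c u) - x (insert b s) (insert c u))) := by
      intro c _
      unfold za
      rw [← map_smul]
      rfl
    rw [sum_congr rfl h2, sum_congr rfl h3, ← map_sum, ← map_sum, ← map_sub]
    congr 1
    rw [Prod.ext_iff]
    constructor
    · simp only [Prod.fst_sub, Prod.fst_sum]
    · simp only [Prod.snd_sub, Prod.snd_sum, smul_sub, smul_neg, sum_sub_distrib, sum_neg_distrib]
      abel
  rw [h1, bd_zero_a S hab hadj hx hd has hbs hau hbu, bd_zero_b S hab hadj hx hd has hbs hau hbu,
    bd_zero_s S hab hx hd has hbs hau hbu]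
  apply S.uniq hab hadj
  · rw [ZZ_a]
    simp only [map_neg, map_smul, S.idem]
  · rw [ZZ_b]
    simp only [map_neg, map_smul, map_sub, map_add, S.idem]
    abel

theorem b1_zb (hx : IsD S x) {Y : Finset V} (hY : ∀ c ∈ Y, G.Adj c a ∧ G.Adj c b)
    (hs : SuppD (insert a (insert b Y)) x) (hd : bdD S x = 0) {s u : Finset V}
    (has : a ∉ s) (hbs : b ∉ s) (hau : a ∉ u) (hbu : b ∉ u) :
    b1 S a b (zb S hab hadj x) (zb S hab hadj x) s u = -(eps b u • x s (insert b u)) := by
  have h1 : b1 S a b (zb S hab hadj x) (zb S hab hadj x) s u =
      - b1 S a b x x s u - b1 S a b (za S hab hadj x) (za S hab hadj x) s u := by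
    unfold b1 zb
    simp only [map_sub, map_neg, smul_sub, smul_neg, sum_sub_distrib, sum_neg_distrib]
    abel
  rw [h1, b1_za S hab hadj hx hY hs hd has hbs hau hbu, bd_zero_s S hab hx hd has hbs hau hbu]
  abel

theorem bdD_yy (hx : IsD S x) {Y : Finset V} (hY : ∀ c ∈ Y, G.Adj c a ∧ G.Adj c b)
    (hs : SuppD (insert a (insert b Y)) x) (hd : bdD S x = 0) :
    bdD S (yy S hab hadj x) = x := by
  funext s u
  have eps_id : ∀ (c : V) (u' : Finset V) (z : N), eps c u' • eps c u' • z = z := by
    intro c u' z
    rw [smul_smul, eps_mul_self, one_smul]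
  by_cases has : a ∈ s
  · have h2 : ∑ c ∈ univ \ (s ∪ u), eps c u • yy S hab hadj x s (insert c u) = 0 :=
      sum_eq_zero fun c _ => by rw [yy_s S hab hadj x (Or.inl has), smul_zero]
    by_cases hbs : b ∈ s
    · rw [hx.zero_of_not S]
      · unfold bdD
        rw [h2, sub_zero]
        refine sum_eq_zero fun c _ => ?_
        rw [yy_s, map_zero, smul_zero]
        by_cases hca : c = a
        · right; rw [mem_erase]; exact ⟨fun h => hab (hca.symm.trans h.symm), hbs⟩
        · left; rw [mem_erase]; exact ⟨fun h => hca h.symm, has⟩
      · rintro ⟨_, h⟩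
        exact hadj (h a (mem_union_left _ has) b (mem_union_left _ hbs) hab)
    · unfold bdD
      rw [h2, sub_zero]
      by_cases hau : a ∈ u
      · rw [hx.zero_of_not S]
        · refine sum_eq_zero fun c hc => ?_
          rw [mem_sdiff] at hc
          rw [yy_s, map_zero, smul_zero]
          left; rw [mem_erase]; exact ⟨fun h => hc.2 (h ▸ hau), has⟩
        · rintro ⟨h, _⟩
          exact disjoint_left.1 h has hau
      · rw [sum_eq_single_of_mem a (mem_sdiff.2 ⟨has, hau⟩)]
        · by_cases hbu : b ∈ u
          · rw [yy_both S hab hadj x (mem_insert_self _ _) (mem_insert_of_mem hbu), map_zero,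
              smul_zero, hx.zero_of_not S]
            rintro ⟨_, h⟩
            exact hadj (h a (mem_union_left _ has) b (mem_union_right _ hbu) hab)
          · rw [yy_a S hab hadj x (notMem_erase _ _) (fun h => hbs (mem_of_mem_erase h)) hau hbu,
              map_smul, eps_id, za, ZZ_a]
            simp only
            rw [insert_erase has]
            exact (hx s u).1 a has
        · intro c _ hca
          rw [yy_s, map_zero, smul_zero]
          left; rw [mem_erase]; exact ⟨fun h => hca h.symm, has⟩
  · by_cases hbs : b ∈ s
    · have h2 : ∑ c ∈ univ \ (s ∪ u), eps c u • yy S hab hadj x s (insert c u) = 0 :=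
        sum_eq_zero fun c _ => by rw [yy_s S hab hadj x (Or.inr hbs), smul_zero]
      unfold bdD
      rw [h2, sub_zero]
      by_cases hbu : b ∈ u
      · rw [hx.zero_of_not S]
        · refine sum_eq_zero fun c hc => ?_
          rw [mem_sdiff] at hc
          rw [yy_s, map_zero, smul_zero]
          right; rw [mem_erase]; exact ⟨fun h => hc.2 (h ▸ hbu), hbs⟩
        · rintro ⟨h, _⟩
          exact disjoint_left.1 h hbs hbu
      · rw [sum_eq_single_of_mem b (mem_sdiff.2 ⟨hbs, hbu⟩)]
        · by_cases hau : a ∈ u
          · rw [yy_both S hab hadj x (mem_insert_of_mem hau) (mem_insert_self _ _), map_zero,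
              smul_zero, hx.zero_of_not S]
            rintro ⟨_, h⟩
            exact hadj (h a (mem_union_right _ hau) b (mem_union_left _ hbs) hab)
          · rw [yy_b S hab hadj x (fun h => has (mem_of_mem_erase h)) (notMem_erase _ _) hau hbu,
              map_smul, eps_id, zb, map_sub, map_neg, za, ZZ_b]
            simp only [map_sub, map_neg]
            rw [insert_erase hbs]
            have := (hx s u).1 b hbs
            rw [this]
            abel
        · intro c _ hcb
          rw [yy_s, map_zero, smul_zero]
          right; rw [mem_erase]; exact ⟨fun h => hcb h.symm, hbs⟩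
    · by_cases hau : a ∈ u
      · by_cases hbu : b ∈ u
        · rw [hx.zero_of_not S]
          · unfold bdD
            rw [sum_eq_zero, sum_eq_zero, sub_zero]
            · intro c _
              rw [yy_both S hab hadj x (mem_insert_of_mem hau) (mem_insert_of_mem hbu), smul_zero]
            · intro c _
              rw [yy_both S hab hadj x (mem_insert_of_mem hau) (mem_insert_of_mem hbu), map_zero,
                smul_zero]
          · rintro ⟨_, h⟩
            exact hadj (h a (mem_union_right _ hau) b (mem_union_right _ hbu) hab)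
        · -- a ∈ u, b ∉ u
          obtain ⟨u', hau', rfl⟩ : ∃ u', a ∉ u' ∧ insert a u' = u :=
            ⟨u.erase a, notMem_erase _ _, insert_erase hau⟩
          have hbu' : b ∉ u' := fun h => hbu (mem_insert_of_mem h)
          have key := b1_za S hab hadj hx hY hs hd has hbs hau' hbu'
          have h3 : bdD S (yy S hab hadj x) s (insert a u') =
              - (eps a u' • b1 S a b (za S hab hadj x) (za S hab hadj x) s u') := by
            unfold bdD b1
            have hs1 : (s \ insert a u' : Finset V) = s \ u' := by
              ext c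
              simp only [mem_sdiff, mem_insert, not_or]
              constructor
              · rintro ⟨h1, h2, h3⟩; exact ⟨h1, h3⟩
              · rintro ⟨h1, h2⟩; exact ⟨h1, fun h => has (h ▸ h1), h2⟩
            have hs2 : (univ \ (s ∪ insert a u') : Finset V) =
                insert b (univ \ (insert a (insert b (s ∪ u')))) := by
              ext c
              simp only [mem_sdiff, mem_univ, true_and, mem_insert, mem_union, not_or]
              constructor
              · intro hc
                by_cases h2 : c = b
                · exact Or.inl h2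
                · exact Or.inr ⟨hc.2.1, h2, hc.1, hc.2.2⟩
              · rintro (h | h)
                · subst h; exact ⟨hbs, fun h => hab h.symm, hbu'⟩
                · exact ⟨h.2.2.1, h.1, h.2.2.2⟩
            have sgn : ∀ c, c ≠ a → c ∉ u' → eps c (insert a u') * eps a (insert c u') =
                - (eps a u' * eps c u') := by
              intro c hca hcu
              have h4 := eps_swap hca.symm hau' hcu
              have h5 := eps_mul_self a u'
              have h6 := eps_mul_self a (insert c u')
              calc eps c (insert a u') * eps a (insert c u') =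
                  eps a u' * (eps a u' * eps c (insert a u')) * eps a (insert c u') := by
                    rw [← mul_assoc (eps a u'), h5, one_mul]
                _ = - (eps a u' * eps c u') * (eps a (insert c u') * eps a (insert c u')) := by
                    rw [h4]; ring
                _ = _ := by rw [h6, mul_one]
            rw [hs1, hs2, sum_insert (by simp), yy_both S hab hadj x
              (mem_insert_of_mem (mem_insert_self _ _)) (mem_insert_self _ _), smul_zero, zero_add,
              smul_sub, smul_sum, smul_sum]
            refine sub_lemma ?_ ?_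
            rotate_left
            · rw [← sum_neg_distrib]
              refine sum_congr rfl fun c hc => ?_
              simp only [mem_sdiff, mem_univ, true_and, mem_insert, mem_union, not_or] at hc
              rw [insert_comm' c a, yy_a S hab hadj x has hbs (by
                rw [mem_insert, not_or]; exact ⟨fun h => hc.1 h.symm, hau'⟩) (by
                rw [mem_insert, not_or]; exact ⟨fun h => hc.2.1 h.symm, hbu'⟩),
                smul_smul, smul_smul, sgn c hc.1 hc.2.2.2, neg_smul]
            · rw [← sum_neg_distrib]
              refine sum_congr rfl fun c hc => ?_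
              rw [mem_sdiff] at hc
              have hca : c ≠ a := fun h => has (h ▸ hc.1)
              have hcb : c ≠ b := fun h => hbs (h ▸ hc.1)
              rw [insert_comm' c a, yy_a S hab hadj x (fun h => has (mem_of_mem_erase h))
                (fun h => hbs (mem_of_mem_erase h)) (by
                rw [mem_insert, not_or]; exact ⟨fun h => hca h.symm, hau'⟩) (by
                rw [mem_insert, not_or]; exact ⟨fun h => hcb h.symm, hbu'⟩),
                map_smul, smul_smul, smul_smul, sgn c hca hc.2, neg_smul]
          rw [h3, key, smul_neg, neg_neg, eps_id]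
      · by_cases hbu : b ∈ u
        · -- b ∈ u, a ∉ u
          obtain ⟨u', hbu', rfl⟩ : ∃ u', b ∉ u' ∧ insert b u' = u :=
            ⟨u.erase b, notMem_erase _ _, insert_erase hbu⟩
          have hau' : a ∉ u' := fun h => hau (mem_insert_of_mem h)
          have key := b1_zb S hab hadj hx hY hs hd has hbs hau' hbu'
          have h3 : bdD S (yy S hab hadj x) s (insert b u') =
              - (eps b u' • b1 S a b (zb S hab hadj x) (zb S hab hadj x) s u') := by
            unfold bdD b1
            have hs1 : (s \ insert b u' : Finset V) = s \ u' := by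
              ext c
              simp only [mem_sdiff, mem_insert, not_or]
              constructor
              · rintro ⟨h1, h2, h3⟩; exact ⟨h1, h3⟩
              · rintro ⟨h1, h2⟩; exact ⟨h1, fun h => hbs (h ▸ h1), h2⟩
            have hs2 : (univ \ (s ∪ insert b u') : Finset V) =
                insert a (univ \ (insert a (insert b (s ∪ u')))) := by
              ext c
              simp only [mem_sdiff, mem_univ, true_and, mem_insert, mem_union, not_or]
              constructor
              · intro hc
                by_cases h2 : c = a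
                · exact Or.inl h2
                · exact Or.inr ⟨h2, hc.2.1, hc.1, hc.2.2⟩
              · rintro (h | h)
                · subst h; exact ⟨has, hab, hau'⟩
                · exact ⟨h.2.2.1, h.2.1, h.2.2.2⟩
            have sgn : ∀ c, c ≠ b → c ∉ u' → eps c (insert b u') * eps b (insert c u') =
                - (eps b u' * eps c u') := by
              intro c hcb hcu
              have h4 := eps_swap hcb.symm hbu' hcu
              have h5 := eps_mul_self b u'
              have h6 := eps_mul_self b (insert c u')
              calc eps c (insert b u') * eps b (insert c u') =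
                  eps b u' * (eps b u' * eps c (insert b u')) * eps b (insert c u') := by
                    rw [← mul_assoc (eps b u'), h5, one_mul]
                _ = - (eps b u' * eps c u') * (eps b (insert c u') * eps b (insert c u')) := by
                    rw [h4]; ring
                _ = _ := by rw [h6, mul_one]
            rw [hs1, hs2, sum_insert (by simp), yy_both S hab hadj x
              (mem_insert_self _ _) (mem_insert_of_mem (mem_insert_self _ _)), smul_zero, zero_add,
              smul_sub, smul_sum, smul_sum]
            refine sub_lemma ?_ ?_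
            rotate_left
            · rw [← sum_neg_distrib]
              refine sum_congr rfl fun c hc => ?_
              simp only [mem_sdiff, mem_univ, true_and, mem_insert, mem_union, not_or] at hc
              rw [insert_comm' c b, yy_b S hab hadj x has hbs (by
                rw [mem_insert, not_or]; exact ⟨fun h => hc.1 h.symm, hau'⟩) (by
                rw [mem_insert, not_or]; exact ⟨fun h => hc.2.1 h.symm, hbu'⟩),
                smul_smul, smul_smul, sgn c hc.2.1 hc.2.2.2, neg_smul]
            · rw [← sum_neg_distrib]
              refine sum_congr rfl fun c hc => ?_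
              rw [mem_sdiff] at hc
              have hca : c ≠ a := fun h => has (h ▸ hc.1)
              have hcb : c ≠ b := fun h => hbs (h ▸ hc.1)
              rw [insert_comm' c b, yy_b S hab hadj x (fun h => has (mem_of_mem_erase h))
                (fun h => hbs (mem_of_mem_erase h)) (by
                rw [mem_insert, not_or]; exact ⟨fun h => hca h.symm, hau'⟩) (by
                rw [mem_insert, not_or]; exact ⟨fun h => hcb h.symm, hbu'⟩),
                map_smul, smul_smul, smul_smul, sgn c hcb hc.2, neg_smul]
          rw [h3, key, smul_neg, neg_neg, eps_id]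
        · -- a, b ∉ s, u
          unfold bdD
          rw [sum_eq_zero (s := s \ u)]
          · have hs2 : (univ \ (s ∪ u) : Finset V) =
                insert a (insert b (univ \ (insert a (insert b (s ∪ u))))) := by
              ext c
              simp only [mem_sdiff, mem_univ, true_and, mem_insert, mem_union, not_or]
              constructor
              · intro hc
                by_cases h1 : c = a
                · exact Or.inl h1
                · by_cases h2 : c = b
                  · exact Or.inr (Or.inl h2)
                  · exact Or.inr (Or.inr ⟨h1, h2, hc⟩)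
              · rintro (h | h | h)
                · subst h; exact ⟨has, hau⟩
                · subst h; exact ⟨hbs, hbu⟩
                · exact h.2.2
            rw [hs2, sum_insert (by simp [hab]), sum_insert (by simp),
              yy_a S hab hadj x has hbs hau hbu, yy_b S hab hadj x has hbs hau hbu, eps_id, eps_id,
              sum_eq_zero]
            · unfold zb
              abel
            · intro c hc
              simp only [mem_sdiff, mem_univ, true_and, mem_insert, mem_union, not_or] at hc
              rw [yy_none S hab hadj x, smul_zero]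
              · rw [mem_insert, not_or]; exact ⟨fun h => hc.1 h.symm, hau⟩
              · rw [mem_insert, not_or]; exact ⟨fun h => hc.2.1 h.symm, hbu⟩
          · intro c hc
            rw [mem_sdiff] at hc
            rw [yy_none S hab hadj x, map_zero, smul_zero]
            · rw [mem_insert, not_or]; exact ⟨fun h => has (h ▸ hc.1), hau⟩
            · rw [mem_insert, not_or]; exact ⟨fun h => hbs (h ▸ hc.1), hbu⟩

theorem za_ne {s u : Finset V} {Y : Finset V} (hx : IsD S x) 
    (hs : SuppD (insert a (insert b Y)) x) (has : a ∉ s) (hbs : b ∉ s) (hau : a ∉ u) (hbu : b ∉ u)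
    (h : ¬ (Disjoint s u ∧ IsCl G (s ∪ u) ∧ s ∪ u ⊆ Y)) :
    x s u = 0 ∧ x (insert a s) u = 0 ∧ x (insert b s) u = 0 := by
  have hsub : ∀ s', s ⊆ s' → s' ∪ u ⊆ insert a (insert b Y) → s ∪ u ⊆ Y := by
    intro s' h1 h2 c hc
    have h3 := h2 (union_subset_union_left h1 hc)
    rw [mem_insert, mem_insert] at h3
    rw [mem_union] at hc
    rcases h3 with h3 | h3 | h3
    · subst h3; rcases hc with hc | hc
      · exact absurd hc has
      · exact absurd hc hau
    · subst h3; rcases hc with hc | hc
      · exact absurd hc hbs
      · exact absurd hc hbu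
    · exact h3
  have key : ∀ s', s ⊆ s' → x s' u = 0 := by
    intro s' h1
    by_contra h2
    have h3 := (hx s' u).2 h2
    exact h ⟨h3.1.mono_left h1, h3.2.mono (union_subset_union_left h1), hsub s' h1 (hs _ _ h2)⟩
  exact ⟨key s Subset.rfl, key _ (subset_insert _ _), key _ (subset_insert _ _)⟩

theorem yy_valid (hx : IsD S x) {Y : Finset V} (hY : ∀ c ∈ Y, G.Adj c a ∧ G.Adj c b)
    (hs : SuppD (insert a (insert b Y)) x) (s u : Finset V) :
    yy S hab hadj x s u ∈ E S s ∧
      (yy S hab hadj x s u ≠ 0 → Disjoint s u ∧ IsCl G (s ∪ u) ∧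
        s ∪ u ⊆ insert a (insert b Y)) := by
  by_cases hs1 : a ∈ s ∨ b ∈ s
  · rw [yy_s S hab hadj x hs1]
    exact ⟨Submodule.zero_mem _, fun h => absurd rfl h⟩
  push Not at hs1
  obtain ⟨has, hbs⟩ := hs1
  have clq : ∀ (d : V) (u' : Finset V), (d = a ∨ d = b) → Disjoint s u' → IsCl G (s ∪ u') →
      s ∪ u' ⊆ Y → d ∉ s → Disjoint s (insert d u') ∧ IsCl G (s ∪ insert d u') ∧
        s ∪ insert d u' ⊆ insert a (insert b Y) := by
    intro d u' hd h1 h2 h3 hds
    refine ⟨by rw [disjoint_insert_right]; exact ⟨hds, h1⟩, ?_, ?_⟩
    · rw [union_insert]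
      intro c hc c' hc' hcc
      rw [mem_insert] at hc hc'
      rcases hc with hc | hc
      · rcases hc' with hc' | hc'
        · exact absurd (hc.trans hc'.symm) hcc
        · rcases hd with hd | hd
          · rw [hc, hd]; exact ((hY _ (h3 hc')).1).symm
          · rw [hc, hd]; exact ((hY _ (h3 hc')).2).symm
      · rcases hc' with hc' | hc'
        · rcases hd with hd | hd
          · rw [hc', hd]; exact (hY _ (h3 hc)).1
          · rw [hc', hd]; exact (hY _ (h3 hc)).2
        · exact h2 c hc c' hc' hcc
    · rw [union_insert]
      intro c hc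
      rw [mem_insert] at hc
      rcases hc with hc | hc
      · rcases hd with hd | hd
        · rw [hc, hd]; exact mem_insert_self _ _
        · rw [hc, hd]; exact mem_insert_of_mem (mem_insert_self _ _)
      · exact mem_insert_of_mem (mem_insert_of_mem (h3 hc))
  have memE : ∀ u', a ∉ u' → b ∉ u' → za S hab hadj x s u' ∈ E S s ∧
      (¬ (Disjoint s u' ∧ IsCl G (s ∪ u') ∧ s ∪ u' ⊆ Y) → za S hab hadj x s u' = 0) := by
    intro u' h1 h2
    by_cases hv : Disjoint s u' ∧ IsCl G (s ∪ u') ∧ s ∪ u' ⊆ Y
    · refine ⟨?_, fun h => absurd hv h⟩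
      intro c hc
      have hcY := hY c (hv.2.2 (mem_union_left _ hc))
      unfold za
      rw [ZZ_e S hab hadj hcY.1 hcY.2]
      simp only [map_sub, map_neg]
      rw [(hx (insert a s) u').1 c (mem_insert_of_mem hc), (hx s u').1 c hc,
        (hx (insert b s) u').1 c (mem_insert_of_mem hc)]
    · obtain ⟨e1, e2, e3⟩ := za_ne S hx hs has hbs h1 h2 hv
      have : za S hab hadj x s u' = 0 := by
        unfold za
        rw [e1, e2, e3]
        simp only [neg_zero, sub_zero]
        rw [show ((0 : N), (0 : N)) = 0 from rfl, map_zero]
      rw [this]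
      exact ⟨Submodule.zero_mem _, fun _ => rfl⟩
  by_cases hau : a ∈ u
  · by_cases hbu : b ∈ u
    · rw [yy_both S hab hadj x hau hbu]
      exact ⟨Submodule.zero_mem _, fun h => absurd rfl h⟩
    · obtain ⟨u', hau', rfl⟩ : ∃ u', a ∉ u' ∧ insert a u' = u :=
        ⟨u.erase a, notMem_erase _ _, insert_erase hau⟩
      have hbu' : b ∉ u' := fun h => hbu (mem_insert_of_mem h)
      rw [yy_a S hab hadj x has hbs hau' hbu']
      refine ⟨Submodule.smul_mem _ _ (memE u' hau' hbu').1, fun h => ?_⟩
      by_cases hv : Disjoint s u' ∧ IsCl G (s ∪ u') ∧ s ∪ u' ⊆ Y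
      · exact clq a u' (Or.inl rfl) hv.1 hv.2.1 hv.2.2 has
      · rw [(memE u' hau' hbu').2 hv, smul_zero] at h
        exact absurd rfl h
  · by_cases hbu : b ∈ u
    · obtain ⟨u', hbu', rfl⟩ : ∃ u', b ∉ u' ∧ insert b u' = u :=
        ⟨u.erase b, notMem_erase _ _, insert_erase hbu⟩
      have hau' : a ∉ u' := fun h => hau (mem_insert_of_mem h)
      rw [yy_b S hab hadj x has hbs hau' hbu']
      refine ⟨Submodule.smul_mem _ _ (Submodule.sub_mem _ (Submodule.neg_mem _ (hx s u').1)
        (memE u' hau' hbu').1), fun h => ?_⟩
      by_cases hv : Disjoint s u' ∧ IsCl G (s ∪ u') ∧ s ∪ u' ⊆ Y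
      · exact clq b u' (Or.inr rfl) hv.1 hv.2.1 hv.2.2 hbs
      · exfalso
        apply h
        unfold zb
        rw [(memE u' hau' hbu').2 hv, (za_ne S hx hs has hbs hau' hbu' hv).1]
        simp
    · rw [yy_none S hab hadj x hau hbu]
      exact ⟨Submodule.zero_mem _, fun h => absurd rfl h⟩

end

/-- `D` of a suspension is acyclic (in all degrees). -/
theorem acyclic_pair {x : Finset V → Finset V → N} (hx : IsD S x) {a b : V} (hab : a ≠ b)
    (hadj : ¬ G.Adj a b) {Y : Finset V} (hY : ∀ c ∈ Y, G.Adj c a ∧ G.Adj c b)
    (hs : SuppD (insert a (insert b Y)) x) (hd : bdD S x = 0) :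
    ∃ y, IsD S y ∧ SuppD (insert a (insert b Y)) y ∧ bdD S y = x :=
  ⟨yy S hab hadj x,
    fun s u => ⟨(yy_valid S hab hadj hx hY hs s u).1,
      fun h => ⟨((yy_valid S hab hadj hx hY hs s u).2 h).1,
        ((yy_valid S hab hadj hx hY hs s u).2 h).2.1⟩⟩,
    fun s u h => ((yy_valid S hab hadj hx hY hs s u).2 h).2.2,
    bdD_yy S hab hadj hx hY hs hd⟩

end PT
end MP8a95ee
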