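import Pool.Agent.Work.MP_8a95ee_gt.PartTwo.Cap

/-!
# Signs, the chain map property of the cap product, and `bdD ∘ bdD = 0`
-/

namespace MP8a95ee.PartTwo

noncomputable section

variable {V : Type} [LinearOrder V]

theorem eps_prod (a : V) (w : Finset V) : eps a w = ∏ b ∈ w, if b < a then (-1 : ℝ) else 1 := by
  unfold eps
  rw [Finset.prod_ite, Finset.prod_const, Finset.prod_const_one, mul_one]

theorem eps_union (a : V) {s u : Finset V} (h : Disjoint s u) :
    eps a (s ∪ u) = eps a s * eps a u := by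
  rw [eps_prod, eps_prod, eps_prod, Finset.prod_union h]

theorem eps_insert (a b : V) {w : Finset V} (h : b ∉ w) :
    eps a (insert b w) = (if b < a then (-1 : ℝ) else 1) * eps a w := by
  rw [eps_prod, eps_prod, Finset.prod_insert h]

theorem eps_sq (a : V) (w : Finset V) : eps a w * eps a w = 1 := by
  unfold eps
  rw [← pow_add, ← two_mul, pow_mul]
  norm_num

theorem eps_ne (a : V) (w : Finset V) : eps a w ≠ 0 := by
  intro h
  have := eps_sq a w
  rw [h] at this
  norm_num at this

/-- the sign of moving `a` after `s` -/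
def gts (a : V) (s : Finset V) : ℝ := ∏ b ∈ s, if a < b then (-1 : ℝ) else 1

theorem sg_insert_left {a : V} {s : Finset V} (u : Finset V) (h : a ∉ s) :
    sg (insert a s) u = eps a u * sg s u := by
  unfold sg
  rw [Finset.prod_insert h]

theorem sg_insert_right {a : V} (s : Finset V) {u : Finset V} (h : a ∉ u) :
    sg s (insert a u) = gts a s * sg s u := by
  unfold sg gts
  rw [← Finset.prod_mul_distrib]
  exact Finset.prod_congr rfl fun b _ => eps_insert b a h

theorem eps_gts {a : V} {s : Finset V} (h : a ∉ s) : eps a s * gts a s = (-1) ^ s.card := by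
  rw [eps_prod]
  unfold gts
  rw [← Finset.prod_mul_distrib, ← Finset.prod_const]
  refine Finset.prod_congr rfl fun b hb => ?_
  have hne : b ≠ a := fun e => h (e ▸ hb)
  rcases lt_or_gt_of_ne hne with h1 | h1
  · simp [h1, not_lt.2 h1.le]
  · simp [h1, not_lt.2 h1.le]

theorem gts_eq {a : V} {s : Finset V} (h : a ∉ s) : gts a s = (-1) ^ s.card * eps a s := by
  rw [← eps_gts h, mul_comm (eps a s), mul_assoc, eps_sq, mul_one]

theorem sg_sq (s u : Finset V) : sg s u * sg s u = 1 := by
  unfold sg
  rw [← Finset.prod_mul_distrib]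
  exact Finset.prod_eq_one fun b _ => eps_sq b u

theorem sg_ne (s u : Finset V) : sg s u ≠ 0 := by
  intro h
  have := sg_sq s u
  rw [h] at this
  norm_num at this

/-- first sign identity -/
theorem sign1 {a : V} {s u : Finset V} (ha : a ∈ s) (hd : Disjoint s u) :
    eps a u * sg (s.erase a) (insert a u) =
      (-1) ^ (s.card - 1) * eps a (s.erase a) * sg s u := by
  have hau : a ∉ u := fun h => (Finset.disjoint_left.1 hd ha) h
  have h1 : sg s u = eps a u * sg (s.erase a) u := by
    conv_lhs => rw [← Finset.insert_erase ha]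
    exact sg_insert_left u (Finset.notMem_erase a s)
  rw [sg_insert_right _ hau, gts_eq (Finset.notMem_erase a s), Finset.card_erase_of_mem ha, h1]
  ring

/-- second sign identity -/
theorem sign2 {a : V} {s u : Finset V} (has : a ∉ s) (hau : a ∉ u) (hd : Disjoint s u) :
    eps a u * sg s (insert a u) = (-1) ^ s.card * (eps a (s ∪ u) * sg s u) := by
  rw [sg_insert_right _ hau, gts_eq has, eps_union a hd]
  ring

theorem sign3 {a b : V} {u : Finset V} (ha : a ∉ u) (hb : b ∉ u) (hab : a ≠ b) :
    eps a u * eps b (insert a u) = -(eps b u * eps a (insert b u)) := by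
  rw [eps_insert _ _ ha, eps_insert _ _ hb]
  rcases lt_or_gt_of_ne hab with h | h
  · simp [h, not_lt.2 h.le]
    ring
  · simp [h, not_lt.2 h.le]
    ring

/-- an antisymmetric double sum vanishes -/
theorem anti {N : Type} [AddCommGroup N] [Module ℝ N] (S : Finset V) (F : V → V → N)
    (h : ∀ a ∈ S, ∀ b ∈ S, a ≠ b → F a b = -F b a) :
    ∑ a ∈ S, ∑ b ∈ S.erase a, F a b = 0 := by
  have h1 : ∑ a ∈ S, ∑ b ∈ S.erase a, F a b = ∑ b ∈ S, ∑ a ∈ S.erase b, F a b := by
    refine Finset.sum_comm' fun a b => ?_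
    simp only [Finset.mem_erase]
    constructor
    · rintro ⟨h1, h2, h3⟩
      exact ⟨⟨Ne.symm h2, h1⟩, h3⟩
    · rintro ⟨⟨h1, h2⟩, h3⟩
      exact ⟨h2, Ne.symm h1, h3⟩
  have h2 : ∑ b ∈ S, ∑ a ∈ S.erase b, F a b = -∑ b ∈ S, ∑ a ∈ S.erase b, F b a := by
    rw [← Finset.sum_neg_distrib]
    refine Finset.sum_congr rfl fun b hb => ?_
    rw [← Finset.sum_neg_distrib]
    refine Finset.sum_congr rfl fun a ha => ?_
    exact h a (Finset.mem_of_mem_erase ha) b hb (Finset.ne_of_mem_erase ha)
  have h3 : ∑ a ∈ S, ∑ b ∈ S.erase a, F a b = -∑ a ∈ S, ∑ b ∈ S.erase a, F a b := by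
    conv_lhs => rw [h1, h2]
  have h4 : (2 : ℝ) • ∑ a ∈ S, ∑ b ∈ S.erase a, F a b = 0 := by
    rw [two_smul]
    nth_rewrite 1 [h3]
    exact neg_add_cancel _
  rcases smul_eq_zero.1 h4 with h | h
  · norm_num at h
  · exact h

omit [LinearOrder V] in
theorem IsCl.mono {G : SimpleGraph V} {s t : Finset V} (h : IsCl G t) (hst : s ⊆ t) :
    IsCl G s := fun a ha b hb => h a (hst ha) b (hst hb)

theorem erase_union_insert {a : V} {s u : Finset V} (ha : a ∈ s) :
    s.erase a ∪ insert a u = s ∪ u := by
  rw [Finset.union_insert, ← Finset.insert_union, Finset.insert_erase ha]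

theorem disj_erase_insert {a : V} {s u : Finset V} (hd : Disjoint s u) :
    Disjoint (s.erase a) (insert a u) := by
  rw [Finset.disjoint_insert_right]
  exact ⟨Finset.notMem_erase a s, hd.mono_left (Finset.erase_subset a s)⟩

variable [Fintype V]
variable {N : Type} [AddCommGroup N] [Module ℝ N]

theorem mem_compl_union {a : V} {s u : Finset V} : a ∈ (s ∪ u)ᶜ ↔ a ∉ s ∧ a ∉ u := by
  rw [Finset.mem_compl, Finset.mem_union, not_or]

omit [Fintype V] in
theorem disj_insert {a : V} {s u : Finset V} (hd : Disjoint s u) (ha : a ∉ s) :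
    Disjoint s (insert a u) := by
  rw [Finset.disjoint_insert_right]
  exact ⟨ha, hd⟩

omit [Fintype V] in
/-- the first half of the differential of a cap product -/
theorem cap_first (e : V → N →ₗ[ℝ] N) (c : Finset V → ℝ) (ψ : Finset V → N) (s u : Finset V)
    (hd : Disjoint s u) :
    ∑ a ∈ s, eps a u • e a (cap c ψ (s.erase a) (insert a u)) =
      ((-1) ^ (s.card - 1) * (sg s u * c (s ∪ u))) • dN e ψ s := by
  unfold dN
  rw [Finset.smul_sum]
  refine Finset.sum_congr rfl fun a ha => ?_
  have h1 : cap c ψ (s.erase a) (insert a u) =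
      (sg (s.erase a) (insert a u) * c (s ∪ u)) • ψ (s.erase a) := by
    unfold cap
    rw [if_pos (disj_erase_insert hd), erase_union_insert ha]
  rw [h1, map_smul, smul_smul, smul_smul, ← mul_assoc, sign1 ha hd]
  congr 1
  ring

/-- the cap product with a cocycle is a chain map up to sign -/
theorem bdD_cap {G : SimpleGraph V} {e : V → N →ₗ[ℝ] N} {m : ℕ} {φ : Finset V → N}
    (hφ : IsCoch G e m φ) (hdφ : ∀ s, IsCl G s → dN e φ s = 0)
    {c : Finset V → ℝ} (hc : ∀ w, c w ≠ 0 → IsCl G w) (s u : Finset V) :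
    bdD e (cap c φ) s u = ((-1 : ℝ) ^ (m + 1)) • cap (bdC c) φ s u := by
  by_cases hd : Disjoint s u
  · have hB : bdD e (cap c φ) s u =
        (∑ a ∈ s, eps a u • e a (cap c φ (s.erase a) (insert a u))) -
          ∑ a ∈ (s ∪ u)ᶜ, eps a u • cap c φ s (insert a u) := by
      unfold bdD
      rw [if_pos hd]
    have h1 : ((-1 : ℝ) ^ (s.card - 1) * (sg s u * c (s ∪ u))) • dN e φ s = 0 := by
      by_cases h : c (s ∪ u) = 0
      · rw [h, mul_zero, mul_zero, zero_smul]
      · rw [hdφ s ((hc _ h).mono Finset.subset_union_left), smul_zero]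
    have h2 : ∑ a ∈ (s ∪ u)ᶜ, eps a u • cap c φ s (insert a u) =
        ((-1 : ℝ) ^ s.card) • cap (bdC c) φ s u := by
      have h3 : cap (bdC c) φ s u = (sg s u * bdC c (s ∪ u)) • φ s := by
        unfold cap
        rw [if_pos hd]
      rw [h3, smul_smul]
      unfold bdC
      rw [Finset.mul_sum, Finset.mul_sum, Finset.sum_smul]
      refine Finset.sum_congr rfl fun a ha => ?_
      obtain ⟨has, hau⟩ := mem_compl_union.1 ha
      have h4 : cap c φ s (insert a u) = (sg s (insert a u) * c (insert a (s ∪ u))) • φ s := by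
        unfold cap
        rw [if_pos (disj_insert hd has), Finset.union_insert]
      rw [h4, smul_smul, ← mul_assoc, sign2 has hau hd]
      congr 1
      ring
    rw [hB, cap_first e c φ s u hd, h1, h2, zero_sub]
    by_cases h : φ s = 0
    · have h5 : cap (bdC c) φ s u = 0 := by
        unfold cap
        rw [if_pos hd, h, smul_zero]
      rw [h5]
      simp
    · rw [(hφ.supp s h).2, pow_succ, mul_neg_one, neg_smul]
  · have h1 : bdD e (cap c φ) s u = 0 := by
      unfold bdD
      rw [if_neg hd]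
    have h2 : cap (bdC c) φ s u = 0 := by
      unfold cap
      rw [if_neg hd]
    rw [h1, h2, smul_zero]

theorem bdD_pos (e : V → N →ₗ[ℝ] N) (x : Finset V → Finset V → N) {s u : Finset V}
    (hd : Disjoint s u) : bdD e x s u =
    (∑ a ∈ s, eps a u • e a (x (s.erase a) (insert a u))) -
      ∑ a ∈ (s ∪ u)ᶜ, eps a u • x s (insert a u) := by
  unfold bdD
  rw [if_pos hd]

/-- `bdD ∘ bdD = 0` on `D` -/
theorem bdD_bdD {G : SimpleGraph V} {e : V → N →ₗ[ℝ] N} (he : IsIdem G e) {X : Finset V}
    {x : Finset V → Finset V → N} (hx : InD G e X x) (s u : Finset V) :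
    bdD e (bdD e x) s u = 0 := by
  by_cases hd : Disjoint s u
  swap
  · unfold bdD
    rw [if_neg hd]
  rw [bdD_pos e _ hd]
  -- expand
  have hA : ∀ a ∈ s, eps a u • e a (bdD e x (s.erase a) (insert a u)) =
      (∑ b ∈ s.erase a, (eps a u * eps b (insert a u)) •
        e a (e b (x ((s.erase a).erase b) (insert b (insert a u))))) -
      ∑ b ∈ (s ∪ u)ᶜ, (eps a u * eps b (insert a u)) •
        e a (x (s.erase a) (insert b (insert a u))) := by
    intro a ha
    rw [bdD_pos e _ (disj_erase_insert hd), map_sub, map_sum, map_sum, smul_sub,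
      Finset.smul_sum, Finset.smul_sum, erase_union_insert ha]
    congr 1
    · refine Finset.sum_congr rfl fun b _ => ?_
      rw [map_smul, smul_smul]
    · refine Finset.sum_congr rfl fun b _ => ?_
      rw [map_smul, smul_smul]
  have hB : ∀ a ∈ (s ∪ u)ᶜ, eps a u • bdD e x s (insert a u) =
      (∑ b ∈ s, (eps a u * eps b (insert a u)) •
        e b (x (s.erase b) (insert b (insert a u)))) -
      ∑ b ∈ ((s ∪ u)ᶜ).erase a, (eps a u * eps b (insert a u)) •
        x s (insert b (insert a u)) := by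
    intro a ha
    obtain ⟨has, hau⟩ := mem_compl_union.1 ha
    rw [bdD_pos e _ (disj_insert hd has), smul_sub, Finset.smul_sum, Finset.smul_sum]
    have hset : (s ∪ insert a u)ᶜ = ((s ∪ u)ᶜ).erase a := by
      ext b
      simp only [Finset.mem_compl, Finset.mem_union, Finset.mem_insert, Finset.mem_erase]
      tauto
    rw [hset]
    congr 1
    · refine Finset.sum_congr rfl fun b _ => ?_
      rw [smul_smul]
    · refine Finset.sum_congr rfl fun b _ => ?_
      rw [smul_smul]
  rw [Finset.sum_congr rfl hA, Finset.sum_congr rfl hB, Finset.sum_sub_distrib,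
    Finset.sum_sub_distrib]
  have h1 : ∑ a ∈ s, ∑ b ∈ s.erase a, (eps a u * eps b (insert a u)) •
        e a (e b (x ((s.erase a).erase b) (insert b (insert a u)))) = 0 := by
    refine anti s _ fun a ha b hb hab => ?_
    have hau : a ∉ u := fun h => (Finset.disjoint_left.1 hd ha) h
    have hbu : b ∉ u := fun h => (Finset.disjoint_left.1 hd hb) h
    rw [sign3 hau hbu hab, neg_smul, Finset.erase_right_comm (a := a) (b := b),
      Finset.insert_comm b a u]
    congr 2
    by_cases h0 : x ((s.erase b).erase a) (insert a (insert b u)) = 0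
    · rw [h0]
      simp
    · have h3 := (hx.supp _ _ h0).2.1
      refine he.comm a b (h3 a ?_ b ?_ hab) _
      · simp
      · simp
  have h2 : ∑ a ∈ (s ∪ u)ᶜ, ∑ b ∈ ((s ∪ u)ᶜ).erase a, (eps a u * eps b (insert a u)) •
        x s (insert b (insert a u)) = 0 := by
    refine anti _ _ fun a ha b hb hab => ?_
    rw [sign3 (mem_compl_union.1 ha).2 (mem_compl_union.1 hb).2 hab, neg_smul,
      Finset.insert_comm b a u]
  have h3 : ∑ a ∈ (s ∪ u)ᶜ, ∑ b ∈ s, (eps a u * eps b (insert a u)) •
        e b (x (s.erase b) (insert b (insert a u))) =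
      -∑ a ∈ s, ∑ b ∈ (s ∪ u)ᶜ, (eps a u * eps b (insert a u)) •
        e a (x (s.erase a) (insert b (insert a u))) := by
    rw [Finset.sum_comm, ← Finset.sum_neg_distrib]
    refine Finset.sum_congr rfl fun a ha => ?_
    rw [← Finset.sum_neg_distrib]
    refine Finset.sum_congr rfl fun b hb => ?_
    obtain ⟨hbs, hbu⟩ := mem_compl_union.1 hb
    have hau : a ∉ u := fun h => (Finset.disjoint_left.1 hd ha) h
    have hne : b ≠ a := fun h => hbs (h ▸ ha)
    rw [sign3 hbu hau hne, neg_smul, Finset.insert_comm b a u]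
  rw [h1, h2, h3]
  simp

/-- `bdD` preserves `D` -/
theorem InD.bdD {G : SimpleGraph V} {e : V → N →ₗ[ℝ] N} (he : IsIdem G e) {X : Finset V}
    {x : Finset V → Finset V → N} (hx : InD G e X x) : InD G e X (bdD e x) := by
  have hcl : ∀ s u, PartTwo.bdD e x s u ≠ 0 → Disjoint s u ∧ IsCl G (s ∪ u) ∧ s ∪ u ⊆ X := by
    intro s u h
    by_cases hd : Disjoint s u
    swap
    · unfold PartTwo.bdD at h
      rw [if_neg hd] at h
      exact absurd rfl h
    refine ⟨hd, ?_⟩
    by_contra hcon
    apply h
    rw [bdD_pos e _ hd]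
    have h1 : ∑ a ∈ s, eps a u • e a (x (s.erase a) (insert a u)) = 0 := by
      refine Finset.sum_eq_zero fun a ha => ?_
      by_cases h0 : x (s.erase a) (insert a u) = 0
      · rw [h0]
        simp
      · have h3 := (hx.supp _ _ h0).2
        rw [erase_union_insert ha] at h3
        exact absurd h3 hcon
    have h2 : ∑ a ∈ (s ∪ u)ᶜ, eps a u • x s (insert a u) = 0 := by
      refine Finset.sum_eq_zero fun a ha => ?_
      by_cases h0 : x s (insert a u) = 0
      · rw [h0]
        simp
      · have h3 := (hx.supp _ _ h0).2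
        rw [Finset.union_insert] at h3
        exact absurd ⟨h3.1.mono (Finset.subset_insert _ _),
          (Finset.subset_insert _ _).trans h3.2⟩ hcon
    rw [h1, h2, sub_zero]
  refine ⟨hcl, ?_⟩
  intro s u b hb
  by_cases hne : PartTwo.bdD e x s u = 0
  · rw [hne, map_zero]
  obtain ⟨hd, hcl', -⟩ := hcl s u hne
  rw [bdD_pos e _ hd, map_sub, map_sum, map_sum]
  congr 1
  · refine Finset.sum_congr rfl fun a ha => ?_
    rw [map_smul]
    congr 1
    by_cases hab : b = a
    · rw [hab, he.idem]
    · rw [he.comm b a (hcl' b (Finset.mem_union_left _ hb) a (Finset.mem_union_left _ ha) hab),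
        hx.fix _ _ b (Finset.mem_erase.2 ⟨hab, hb⟩)]
  · refine Finset.sum_congr rfl fun a _ => ?_
    rw [map_smul, hx.fix _ _ b hb]

end

end MP8a95ee.PartTwo
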