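import Pool.Agent.Work.MP_8a95ee_gt.PartTwo.DefsD

/-! STUB (statements of parts (b), (c), (e)); do not import in a proof. -/

namespace MP8a95ee
namespace PT
namespace Stub

open Finset Classical

variable {V : Type} [Fintype V] [LinearOrder V]
variable {G : SimpleGraph V} {N : Type} [AddCommGroup N] [Module ℝ N] (S : LS G N)

theorem bdC_bdC {M : Type} [AddCommGroup M] [Module ℝ M] (c : Finset V → M) :
    bdC (bdC c) = 0 := by sorry

theorem isD_bdD {x : Finset V → Finset V → N} (hx : IsD S x) : IsD S (bdD S x) := by sorry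

theorem suppD_bdD {x : Finset V → Finset V → N} {X : Finset V} (hx : SuppD X x) :
    SuppD X (bdD S x) := by sorry

theorem bdD_bdD {x : Finset V → Finset V → N} (hx : IsD S x) : bdD S (bdD S x) = 0 := by sorry

theorem isD_cap {c : Finset V → ℝ} {φ : Finset V → N} (hφ : IsCoch S φ)
    (hc : ∀ w, c w ≠ 0 → IsCl G w) : IsD S (cap c φ) := by sorry

theorem suppD_cap {c : Finset V → ℝ} {φ : Finset V → N} {X : Finset V}
    (hc : ∀ w, c w ≠ 0 → w ⊆ X) : SuppD X (cap c φ) := by sorry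

theorem bdD_cap {c : Finset V → ℝ} {φ : Finset V → N} (hφ : IsCoch S φ) (hd : dN S φ = 0)
    (hc : ∀ w, c w ≠ 0 → IsCl G w) : bdD S (cap c φ) = - cap (bdC c) φ := by sorry

theorem bdD_add (x y : Finset V → Finset V → N) : bdD S (x + y) = bdD S x + bdD S y := by sorry

theorem bdD_smul (r : ℝ) (x : Finset V → Finset V → N) : bdD S (r • x) = r • bdD S x := by sorry

/-- `D` of a suspension is acyclic (in all degrees). -/
theorem acyclic_pair {x : Finset V → Finset V → N} (hx : IsD S x) {a b : V} (hab : a ≠ b)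
    (hadj : ¬ G.Adj a b) {Y : Finset V} (hY : ∀ c ∈ Y, G.Adj c a ∧ G.Adj c b)
    (hs : SuppD (insert a (insert b Y)) x) (hd : bdD S x = 0) :
    ∃ y, IsD S y ∧ SuppD (insert a (insert b Y)) y ∧ bdD S y = x := by sorry

/-- Existence of the local system with the right dimensions. -/
theorem exists_LS (G : SimpleGraph V) : ∃ S : LS G (Finset V → ℝ),
    ∀ s, IsCl G s → Module.finrank ℝ (E S s) * 2 ^ s.card = 2 ^ Fintype.card V := by sorry

/-- (e): if every `o ∩ φ` is a boundary in `D`, the Euler characteristic vanishes.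
`o` = fundamental cycle. -/
theorem euler_zero (G : SimpleGraph V) (n : ℕ) (o : Finset V → ℝ)
    (hdim : ∀ w, IsCl G w → w.card ≤ n)
    (ho : ∀ w, o w ≠ 0 → IsCl G w ∧ w.card = n)
    (hpure : ∀ w, IsCl G w → ∃ w', w ⊆ w' ∧ o w' ≠ 0)
    -- the links are homology spheres: exactness below the top dimension
    (hlow : ∀ t, IsCl G t → ∀ j, t.card + j < n → ∀ c : Finset V → ℝ,
      (∀ w, c w ≠ 0 → Disjoint t w ∧ IsCl G (t ∪ w) ∧ w.card = j) → bdC c = 0 →
      ∃ c' : Finset V → ℝ, (∀ w, c' w ≠ 0 → Disjoint t w ∧ IsCl G (t ∪ w) ∧ w.card = j + 1) ∧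
        bdC c' = c)
    -- in the top dimension the cycles of a link are the multiples of the link of `o`
    (htop : ∀ t, IsCl G t → ∀ c : Finset V → ℝ,
      (∀ w, c w ≠ 0 → Disjoint t w ∧ IsCl G (t ∪ w) ∧ t.card + w.card = n) → bdC c = 0 →
      ∃ r : ℝ, ∀ w, Disjoint t w → c w = r * (tau t w * o (t ∪ w)))
    (hcap : ∀ S : LS G (Finset V → ℝ), ∀ φ, IsCoch S φ → dN S φ = 0 →
      ∃ x, IsD S x ∧ bdD S x = cap o φ) :
    ∑ s ∈ univ.filter (fun s : Finset V => IsCl G s),
      (-1 : ℤ) ^ s.card * 2 ^ (Fintype.card V - s.card) = 0 := by sorry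

end Stub
end PT
end MP8a95ee
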